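import Pool.Agent.W622.ETG.Stm
import Pool.Agent.W639.ELT.PL

/-! Project ELG (helper622), part PL: primal linkage for general `e`.
The proof of the case `e = 0` does not use that the forms are alternating. -/

set_option autoImplicit false

namespace Pool.Agent.W320.ELG

open Pool.Agent.W622.ETG Module

theorem t_PL : S_PL := by
  intro V _ _ _ e A _ hL a c u v huv
  by_contra hcon
  have hnot : (u, v) ∉ Pool.Agent.W639.ELT.NN A a c := hcon
  obtain ⟨φ, h1, h2⟩ := Submodule.exists_dual_map_eq_bot_of_notMem hnot inferInstance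
  have hφ : ∀ p ∈ Pool.Agent.W639.ELT.NN A a c, φ p = 0 := by
    intro p hp
    have : φ p ∈ Submodule.map φ (Pool.Agent.W639.ELT.NN A a c) := ⟨p, hp, rfl⟩
    rw [h2] at this
    exact this
  set f : Dl V := φ.comp (LinearMap.inl (ZMod 2) V V) with hf
  set g : Dl V := φ.comp (LinearMap.inr (ZMod 2) V V) with hg
  have hfg : ∀ x y, φ (x, y) = f x + g y := by
    intro x y
    rw [hf, hg, LinearMap.comp_apply, LinearMap.comp_apply, ← map_add]
    simp
  obtain ⟨ω₁, k1, e1⟩ := Pool.Agent.W639.ELT.mem_ia A a f fun y hy => by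
    have := hφ (y, 0) ⟨0, fun ω hω => by simpa using hy ω hω, fun ω _ => by simp, fun ω _ => by simp⟩
    rw [hfg] at this
    simpa using this
  obtain ⟨ω₂, k2, e2⟩ := Pool.Agent.W639.ELT.mem_ia A c g fun y hy => by
    have := hφ (0, y) ⟨0, fun ω _ => by simp, fun ω hω => by simpa using hy ω hω, fun ω _ => by simp⟩
    rw [hfg] at this
    simpa using this
  obtain ⟨ω₃, k3, e3⟩ := Pool.Agent.W639.ELT.mem_ia A (a + c) (f + g) fun y hy => by
    have := hφ (y, y) ⟨y, fun ω _ => by rw [vadd, map_zero], fun ω _ => by rw [vadd, map_zero], hy⟩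
    rw [hfg] at this
    exact this
  obtain ⟨ω, hω, h3, h4⟩ := Pool.Agent.W639.ELT.dl2 A hL k1 k2 k3 (by rw [e1, e2, e3])
  apply h1
  rw [hfg, ← e1, ← e2, ← h3, ← h4, huv ω hω, zadd]

end Pool.Agent.W320.ELG
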